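import Mathlib

/-!
# The number of irreducible components of numerical semigroups is unbounded

For `F ≥ (N + 1) ^ (2 ^ N)` the numerical semigroup `{0, F + 1, F + 2, ...}` is not an intersection of
`N` or fewer irreducible numerical semigroups.
-/

namespace Pool.Agent.Results.MP_b58a5b_nt.Unbounded

/-- A numerical semigroup: a set of natural numbers which contains `0`, is closed under addition and
has finite complement. -/
def IsNumericalSemigroup (S : Set ℕ) : Prop :=
  0 ∈ S ∧ (∀ a ∈ S, ∀ b ∈ S, a + b ∈ S) ∧ (Sᶜ).Finite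

/-- An irreducible numerical semigroup: a numerical semigroup which is not the intersection of two
numerical semigroups properly containing it. -/
def IsIrreducible (S : Set ℕ) : Prop :=
  IsNumericalSemigroup S ∧
    ¬ ∃ S₁ S₂ : Set ℕ, IsNumericalSemigroup S₁ ∧ IsNumericalSemigroup S₂ ∧
      S ⊂ S₁ ∧ S ⊂ S₂ ∧ S = S₁ ∩ S₂

lemma ns_insert {T : Set ℕ} (hT : IsNumericalSemigroup T) {F x : ℕ} (hF : ∀ n, F < n → n ∈ T)
    (h2 : F < 2 * x) (ht : ∀ t ∈ T, 0 < t → F < x + t) : IsNumericalSemigroup (insert x T) := by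
  obtain ⟨h0, hadd, hfin⟩ := hT
  refine ⟨Or.inr h0, ?_, hfin.subset (Set.compl_subset_compl.2 (Set.subset_insert x T))⟩
  have key : ∀ t ∈ T, x + t ∈ insert x T := by
    intro t htT
    rcases Nat.eq_zero_or_pos t with h | h
    · subst h; simp
    · exact Or.inr (hF _ (ht t htT h))
  intro a ha b hb
  rcases ha with rfl | ha
  · rcases hb with rfl | hb
    · exact Or.inr (hF _ (by omega))
    · exact key b hb
  · rcases hb with rfl | hb
    · rw [add_comm]; exact key a ha
    · exact Or.inr (hadd a ha b hb)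

/-- An irreducible numerical semigroup does not have two gaps `x < y` in its top part if it has no
small positive elements. -/
lemma top_gap {T : Set ℕ} (hT : IsIrreducible T) {F x y : ℕ} (hF : ∀ n, F < n → n ∈ T)
    (h2 : F < 2 * x) (ht : ∀ t ∈ T, 0 < t → F < x + t) (hx : x ∉ T) (hy : y ∉ T) (hxy : x < y) :
    False := by
  apply hT.2
  refine ⟨insert x T, insert y T, ns_insert hT.1 hF h2 ht,
    ns_insert hT.1 hF (by omega) (fun t h h' => by have := ht t h h'; omega),
    Set.ssubset_insert hx, Set.ssubset_insert hy, ?_⟩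
  ext z
  simp only [Set.mem_inter_iff, Set.mem_insert_iff]
  constructor
  · intro h; exact ⟨Or.inr h, Or.inr h⟩
  · rintro ⟨h1 | h1, h2 | h2⟩
    · omega
    · exact h2
    · exact h1
    · exact h1

lemma mul_mem_ns {T : Set ℕ} (hT : IsNumericalSemigroup T) {m : ℕ} (hm : m ∈ T) (k : ℕ) :
    m * k ∈ T := by
  induction k with
  | zero => simpa using hT.1
  | succ k ih => rw [Nat.mul_succ]; exact hT.2.1 _ ih _ hm

/-- The step of the induction. -/
lemma step {N k F L : ℕ} (hk : k ≤ N) (T : Fin k → Set ℕ) (hT : ∀ i, IsIrreducible (T i))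
    (hF : ∀ i, ∀ n, F < n → n ∈ T i) (hne : ∀ x, 0 < x → x ≤ F → ∃ i, x ∉ T i)
    (hL : 0 < L) (hLF : 2 * ((N + 1) * L) ≤ F) (J : Finset (Fin k)) (hJ : ∀ i ∈ J, L ∈ T i) :
    ∃ i, i ∉ J ∧ ∃ t ∈ T i, 0 < t ∧ t ≤ (N + 1) * L := by
  by_contra hcon
  push_neg at hcon
  -- the multiples of `L` in the window
  set q := F / L with hq
  have hqF : L * q ≤ F := Nat.mul_div_le F L
  have hqF' : F < L * q + L := by
    have := Nat.lt_mul_div_succ F hL
    rw [Nat.mul_add] at this
    simpa using this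
  have hqN : 2 * (N + 1) ≤ q := by
    rw [hq, Nat.le_div_iff_mul_le hL]
    nlinarith
  have hex : ∀ r : Fin (N + 1), ∃ i : Fin k, L * (q - r) ∉ T i := by
    intro r
    have hr := r.2
    apply hne
    · apply Nat.mul_pos hL; omega
    · exact le_trans (Nat.mul_le_mul_left L (Nat.sub_le q r)) hqF
  choose g hg using hex
  have hgJ : ∀ r, g r ∉ J := by
    intro r hr
    exact hg r (mul_mem_ns (hT _).1 (hJ _ hr) _)
  have hlow : ∀ r : Fin (N + 1), F < L * (q - r) + (N + 1) * L := by
    intro r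
    have hr := r.2
    have h1 : L * (q - r) + L * r = L * q := by
      rw [← Nat.mul_add]; congr 1; omega
    have h2 : L * (r : ℕ) ≤ L * N := Nat.mul_le_mul_left L (by omega)
    nlinarith
  have hinj : ∀ r s : Fin (N + 1), r < s → g r ≠ g s := by
    intro r s hrs hEq
    have hr := r.2
    have hs := s.2
    have hrs' : (r : ℕ) < s := hrs
    refine top_gap (hT (g s)) (F := F) (x := L * (q - s)) (y := L * (q - r)) (hF _) ?_ ?_ (hg s) ?_ ?_
    · have := hlow s
      omega
    · intro t ht ht0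
      have h1 := hcon (g s) (hgJ s) t ht ht0
      have := hlow s
      omega
    · rw [← hEq]; exact hg r
    · apply Nat.mul_lt_mul_of_pos_left _ hL
      omega
  have hinj' : Function.Injective g := by
    intro r s h
    rcases lt_trichotomy r s with h1 | h1 | h1
    · exact absurd h (hinj r s h1)
    · exact h1
    · exact absurd h.symm (hinj s r h1)
  have := Fintype.card_le_of_injective g hinj'
  simp at this
  omega

lemma induction_claim {N k F : ℕ} (hN : 1 ≤ N) (hk : k ≤ N) (T : Fin k → Set ℕ)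
    (hT : ∀ i, IsIrreducible (T i))
    (hF : ∀ i, ∀ n, F < n → n ∈ T i) (hne : ∀ x, 0 < x → x ≤ F → ∃ i, x ∉ T i)
    (hFN : (N + 1) ^ (2 ^ N) ≤ F) (j : ℕ) (hj : j ≤ k) :
    ∃ J : Finset (Fin k), J.card = j ∧ ∃ L : ℕ, 0 < L ∧ L ≤ (N + 1) ^ (2 ^ j - 1) ∧
      ∀ i ∈ J, L ∈ T i := by
  induction j with
  | zero => exact ⟨∅, rfl, 1, one_pos, by simp, by simp⟩
  | succ j ih =>
    obtain ⟨J, hJc, L, hL0, hLle, hJL⟩ := ih (by omega)
    have hjN : j + 1 ≤ N := by omega
    have hp1 : 1 ≤ 2 ^ j := Nat.one_le_two_pow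
    have hNL : (N + 1) * L ≤ (N + 1) ^ (2 ^ j) := by
      calc (N + 1) * L ≤ (N + 1) * (N + 1) ^ (2 ^ j - 1) := Nat.mul_le_mul_left _ hLle
        _ = (N + 1) ^ (2 ^ j) := by
          rw [← pow_succ']
          congr 1
          omega
    have hbig : 2 * ((N + 1) * L) ≤ F := by
      have h1 : 2 * (N + 1) ^ (2 ^ j) ≤ (N + 1) ^ (2 ^ (j + 1)) := by
        have h2 : (N + 1) ^ (2 ^ (j + 1)) = (N + 1) ^ (2 ^ j) * (N + 1) ^ (2 ^ j) := by
          rw [← pow_add]; congr 1; ring
        rw [h2]
        apply Nat.mul_le_mul_right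
        calc 2 ≤ N + 1 := by omega
          _ = (N + 1) ^ 1 := (pow_one _).symm
          _ ≤ (N + 1) ^ (2 ^ j) := Nat.pow_le_pow_right (by omega) hp1
      have h3 : (N + 1) ^ (2 ^ (j + 1)) ≤ (N + 1) ^ (2 ^ N) :=
        Nat.pow_le_pow_right (by omega) (Nat.pow_le_pow_right (by omega) hjN)
      omega
    obtain ⟨i, hiJ, t, htT, ht0, htle⟩ := step hk T hT hF hne hL0 hbig J hJL
    refine ⟨insert i J, by rw [Finset.card_insert_of_notMem hiJ, hJc], L * t, Nat.mul_pos hL0 ht0, ?_, ?_⟩
    · calc L * t ≤ (N + 1) ^ (2 ^ j - 1) * (N + 1) ^ (2 ^ j) :=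
            Nat.mul_le_mul hLle (le_trans htle hNL)
        _ = (N + 1) ^ (2 ^ (j + 1) - 1) := by
          rw [← pow_add]
          congr 1
          have : 2 ^ (j + 1) = 2 ^ j + 2 ^ j := by ring
          omega
    · intro i' hi'
      rcases Finset.mem_insert.1 hi' with rfl | h
      · rw [mul_comm]; exact mul_mem_ns (hT _).1 htT _
      · exact mul_mem_ns (hT _).1 (hJL _ h) _

/-- **The number of irreducible components is unbounded.** For all `N` and all
`F ≥ (N + 1) ^ (2 ^ N)` the set `{0} ∪ {n : n > F}` is a numerical semigroup which is not the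
intersection of `N` or fewer irreducible numerical semigroups. -/
theorem result : ∀ N F : ℕ, (N + 1) ^ (2 ^ N) ≤ F →
    IsNumericalSemigroup {n : ℕ | n = 0 ∨ F < n} ∧
      ∀ (k : ℕ) (T : Fin k → Set ℕ), k ≤ N → (∀ i, IsIrreducible (T i)) →
        {n : ℕ | n = 0 ∨ F < n} ≠ ⋂ i, T i := by
  intro N F hF
  refine ⟨⟨Or.inl rfl, ?_, ?_⟩, ?_⟩
  · rintro a (rfl | ha) b (rfl | hb)
    · exact Or.inl rfl
    · exact Or.inr (by omega)
    · exact Or.inr (by omega)
    · exact Or.inr (by omega)
  · apply (Set.finite_Icc 0 F).subset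
    intro n hn
    simp only [Set.mem_compl_iff, Set.mem_setOf_eq, not_or, not_lt] at hn
    exact ⟨Nat.zero_le _, hn.2⟩
  · intro k T hk hT hEq
    have hFpos : 0 < F := lt_of_lt_of_le (Nat.pos_of_ne_zero (by positivity)) hF
    have hFT : ∀ i, ∀ n, F < n → n ∈ T i := by
      intro i n hn
      have : n ∈ ⋂ i, T i := by rw [← hEq]; exact Or.inr hn
      exact Set.mem_iInter.1 this i
    have hne : ∀ x, 0 < x → x ≤ F → ∃ i, x ∉ T i := by
      intro x hx hxF
      by_contra h
      push_neg at h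
      have : x ∈ {n : ℕ | n = 0 ∨ F < n} := by rw [hEq]; exact Set.mem_iInter.2 h
      rcases this with h | h <;> omega
    rcases Nat.eq_zero_or_pos N with hN | hN
    · subst hN
      obtain rfl : k = 0 := by omega
      obtain ⟨i, _⟩ := hne 1 one_pos hFpos
      exact i.elim0
    obtain ⟨J, hJc, L, hL0, hLle, hJL⟩ := induction_claim hN hk T hT hFT hne hF k le_rfl
    have hJ : J = Finset.univ := by
      apply Finset.eq_univ_of_card
      simpa using hJc
    have hLF : L ≤ F := by
      refine le_trans hLle (le_trans (Nat.pow_le_pow_right (by omega) ?_) hF)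
      exact le_trans (Nat.sub_le _ _) (Nat.pow_le_pow_right (by omega) hk)
    obtain ⟨i, hi⟩ := hne L hL0 hLF
    exact hi (hJL i (by rw [hJ]; exact Finset.mem_univ i))

end Pool.Agent.Results.MP_b58a5b_nt.Unbounded
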